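import Pool.Agent.H61.Comb1
import Pool.Agent.H61.CpBeta

set_option autoImplicit false

namespace Pool.Agent.Results.MP_0b3857_gt.OntoBetaD

open Set Cardinal

universe u

/-- A space `Z` is submetalindelof: every open cover has a sequence of open covers refining it
such that every point lies in at most countably many members of one of them. -/
def Submetalindelof (Z : Type u) [TopologicalSpace Z] : Prop :=
  ∀ 𝒰 : Set (Set Z), (∀ U ∈ 𝒰, IsOpen U) → ⋃₀ 𝒰 = Set.univ →
    ∃ 𝒱 : ℕ → Set (Set Z),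
      (∀ n, ∀ V ∈ 𝒱 n, IsOpen V ∧ ∃ U ∈ 𝒰, V ⊆ U) ∧
      (∀ n, ⋃₀ 𝒱 n = Set.univ) ∧
      ∀ z : Z, ∃ n, {V ∈ 𝒱 n | z ∈ V}.Countable

/-- Submetalindelofness passes to retract-like subspaces. -/
theorem Submetalindelof.of_retract {Y Z : Type u} [TopologicalSpace Y] [TopologicalSpace Z]
    (E : Y → Z) (R : Z → Y) (hE : Continuous E) (hR : Continuous R) (hRE : ∀ y, R (E y) = y)
    (hZ : Submetalindelof Z) : Submetalindelof Y := by
  intro 𝒰 hU1 hU2
  obtain ⟨𝒱, h1, h2, h3⟩ := hZ ((fun U => R ⁻¹' U) '' 𝒰)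
    (by rintro _ ⟨U, hU, rfl⟩; exact (hU1 U hU).preimage hR)
    (by
      rw [sUnion_eq_univ_iff] at hU2 ⊢
      intro z
      obtain ⟨U, hU, hz⟩ := hU2 (R z)
      exact ⟨_, ⟨U, hU, rfl⟩, hz⟩)
  refine ⟨fun n => (fun V => E ⁻¹' V) '' 𝒱 n, ?_, ?_, ?_⟩
  · rintro n _ ⟨V, hV, rfl⟩
    obtain ⟨hVo, _, ⟨U, hU, rfl⟩, hVU⟩ := h1 n V hV
    refine ⟨hVo.preimage hE, U, hU, ?_⟩
    intro y hy
    have := hVU hy
    rwa [mem_preimage, hRE] at this
  · intro n
    have := h2 n
    rw [sUnion_eq_univ_iff] at this ⊢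
    intro y
    obtain ⟨V, hV, hy⟩ := this (E y)
    exact ⟨_, ⟨V, hV, rfl⟩, hy⟩
  · intro y
    obtain ⟨n, hn⟩ := h3 (E y)
    refine ⟨n, (hn.image (fun V => E ⁻¹' V)).mono ?_⟩
    rintro _ ⟨⟨V, hV, rfl⟩, hy⟩
    exact ⟨V, ⟨hV, hy⟩, rfl⟩

/-- The key case: the space of ultrafilters on a set of cardinality `ℵ₁`. -/
theorem not_submetalindelof_beta :
    ¬ Submetalindelof {g : Ultrafilter (ℵ_ 1).ord.ToType.{u} → ℝ // Continuous g} := by
  have h1 : (ℵ_ 1).IsRegular := isRegular_aleph_one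
  have c1 : Order.cof (ℵ_ 1).ord.ToType.{u} = ℵ_ 1 := by
    rw [Ordinal.cof_toType, h1.cof_ord]
  have l01 : (ℵ₀ : Cardinal.{u}) < ℵ_ 1 := aleph0_lt_aleph_one
  have m1 : #((ℵ_ 1).ord.ToType.{u}) = ℵ_ 1 := mk_ord_toType _
  have : NoMaxOrder (ℵ_ 1).ord.ToType.{u} := Cardinal.noMaxOrder l01.le
  have : Nonempty (ℵ_ 1).ord.ToType.{u} := by
    rw [← mk_ne_zero_iff, m1]; exact (aleph_pos 1).ne'
  have hI : ∀ a : (ℵ_ 1).ord.ToType.{u}, (Iio a).Countable := by
    intro a
    rw [countable_iff_lt_aleph_one]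
    exact mk_Iio_toType_ord_lt a
  intro hsub
  obtain ⟨𝒰, hU1, hU2, hU3⟩ := H61.not_submetalindelof_of_comb (κ := (ℵ_ 1).ord.ToType.{u})
    (fun F hF => H61.comb_omega_one c1 m1 hI F hF)
  exact hU3 (hsub 𝒰 hU1 hU2)

/-- If a compact space `X` maps continuously onto the Stone-Cech compactification of an
uncountable discrete space, then `C_p(X)` is not submetalindelof. -/
theorem result (X : Type u) [TopologicalSpace X] [CompactSpace X] [T2Space X]
    (D : Type u) [TopologicalSpace D] [DiscreteTopology D] [Uncountable D]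
    (φ : X → StoneCech D) (hφ : Continuous φ) (hs : Function.Surjective φ) :
    ¬ Submetalindelof {g : X → ℝ // Continuous g} := by
  intro hX
  -- an injection of a set of size `ℵ₁` into `D`, and a left inverse
  have hle : #((ℵ_ 1).ord.ToType.{u}) ≤ #D := by
    rw [mk_ord_toType, ← succ_aleph0, Order.succ_le_iff]
    exact aleph0_lt_mk
  obtain ⟨j⟩ := hle
  have hne : Nonempty (ℵ_ 1).ord.ToType.{u} := by
    rw [← mk_ne_zero_iff, mk_ord_toType]; exact (aleph_pos 1).ne'
  let r : D → (ℵ_ 1).ord.ToType.{u} := Function.invFun j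
  have hr : ∀ w, r (j w) = w := Function.leftInverse_invFun j.injective
  -- the induced map onto the space of ultrafilters
  have hrc : Continuous (fun d : D => (pure (r d) : Ultrafilter (ℵ_ 1).ord.ToType.{u})) :=
    continuous_of_discreteTopology
  let ψ : StoneCech D → Ultrafilter (ℵ_ 1).ord.ToType.{u} := stoneCechExtend hrc
  have hψ : Continuous ψ := continuous_stoneCechExtend hrc
  have hψ' : ∀ d, ψ (stoneCechUnit d) = pure (r d) := fun d =>
    stoneCechExtend_stoneCechUnit hrc d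
  -- a section over the principal ultrafilters
  have hsec : ∀ w : (ℵ_ 1).ord.ToType.{u}, ∃ x : X, ψ (φ x) = pure w := by
    intro w
    obtain ⟨x, hx⟩ := hs (stoneCechUnit (j w))
    refine ⟨x, ?_⟩
    rw [hx, hψ', hr]
  choose t ht using hsec
  let i : Ultrafilter (ℵ_ 1).ord.ToType.{u} → X := Ultrafilter.extend t
  have hi : Continuous i := continuous_ultrafilter_extend t
  have hsection : ∀ p, ψ (φ (i p)) = p := by
    have : (ψ ∘ φ ∘ i) = id := by
      apply denseRange_pure.equalizer (hψ.comp (hφ.comp hi)) continuous_id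
      funext w
      change ψ (φ (i (pure w))) = pure w
      have hiw : i (pure w) = t w := ultrafilter_extend_pure t w
      rw [hiw, ht]
    intro p
    exact congrFun this p
  -- extension and restriction operators
  let E : {g : Ultrafilter (ℵ_ 1).ord.ToType.{u} → ℝ // Continuous g} →
      {g : X → ℝ // Continuous g} := fun g => ⟨fun x => g.1 (ψ (φ x)), g.2.comp (hψ.comp hφ)⟩
  let R : {g : X → ℝ // Continuous g} →
      {g : Ultrafilter (ℵ_ 1).ord.ToType.{u} → ℝ // Continuous g} :=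
    fun g => ⟨fun p => g.1 (i p), g.2.comp hi⟩
  have hE : Continuous E := by
    apply Continuous.subtype_mk
    exact continuous_pi fun x => (continuous_apply (ψ (φ x))).comp continuous_subtype_val
  have hR : Continuous R := by
    apply Continuous.subtype_mk
    exact continuous_pi fun p => (continuous_apply (i p)).comp continuous_subtype_val
  have hRE : ∀ g, R (E g) = g := by
    intro g
    apply Subtype.ext
    funext p
    change g.1 (ψ (φ (i p))) = g.1 p
    rw [hsection]
  exact not_submetalindelof_beta (hX.of_retract E R hE hR hRE)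

end Pool.Agent.Results.MP_0b3857_gt.OntoBetaD
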